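import Pool.Agent.Y716.C.Defs

/-!
# Numbers for the class theorem of systems (helper349, for helper716)
-/

set_option autoImplicit false

namespace Pool.Agent.Y349.C

open Pool.Agent.Y716.C Pool.Agent.Y716.Q Filter Topology

theorem exists_tauS (s : ℕ) {ε : ℝ} (hε : 0 < ε) : ∃ τ : ℝ, 0 < τ ∧ τ ≤ 1 / 2 ∧
    0 < (1 - τ) - (1 + τ) * τ - 2 * τ ∧
    1 / 2 ≤ (1 - τ) / (1 + τ) ^ s * ((1 - τ) - (1 + τ) * τ - 2 * τ) ∧
    (1 + τ) ^ 3 / (1 - τ) ^ (2 * s) * (1 + τ) ≤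
      (1 + ε) * ((1 - τ) / (1 + τ) ^ s * ((1 - τ) - (1 + τ) * τ - 2 * τ)) ^ 2 := by
  have hb : ContinuousAt (fun τ : ℝ => (1 - τ) - (1 + τ) * τ - 2 * τ) 0 := by fun_prop
  have hf1 : ContinuousAt (fun τ : ℝ => (1 - τ) / (1 + τ) ^ s *
      ((1 - τ) - (1 + τ) * τ - 2 * τ)) 0 :=
    (ContinuousAt.div (by fun_prop) (by fun_prop) (by norm_num)).mul hb
  have hf2 : ContinuousAt (fun τ : ℝ => (1 + ε) * ((1 - τ) / (1 + τ) ^ s *
      ((1 - τ) - (1 + τ) * τ - 2 * τ)) ^ 2 - (1 + τ) ^ 3 / (1 - τ) ^ (2 * s) * (1 + τ)) 0 := by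
    refine (continuousAt_const.mul (hf1.pow 2)).sub ?_
    exact (ContinuousAt.div (by fun_prop) (by fun_prop) (by norm_num)).mul (by fun_prop)
  have e1 : ∀ᶠ τ in 𝓝 (0:ℝ), 1 / 2 < (1 - τ) / (1 + τ) ^ s *
      ((1 - τ) - (1 + τ) * τ - 2 * τ) :=
    hf1.eventually (lt_mem_nhds (by norm_num))
  have e2 : ∀ᶠ τ in 𝓝 (0:ℝ), 0 < (1 - τ) - (1 + τ) * τ - 2 * τ :=
    hb.eventually (lt_mem_nhds (by norm_num))
  have e3 : ∀ᶠ τ in 𝓝 (0:ℝ), 0 < (1 + ε) * ((1 - τ) / (1 + τ) ^ s *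
      ((1 - τ) - (1 + τ) * τ - 2 * τ)) ^ 2 - (1 + τ) ^ 3 / (1 - τ) ^ (2 * s) * (1 + τ) :=
    hf2.eventually (lt_mem_nhds (by norm_num; exact hε))
  have e4 : ∀ᶠ τ in 𝓝 (0:ℝ), τ < 1 / 2 := gt_mem_nhds (by norm_num)
  have e5 := e1.and (e2.and (e3.and e4))
  obtain ⟨d, hd, hd2⟩ := Metric.eventually_nhds_iff.mp e5
  have h6 := hd2 (y := d / 2) (by rw [Real.dist_eq, sub_zero, abs_of_pos (by linarith)]; linarith)
  obtain ⟨h7, h8, h9, h10⟩ := h6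
  exact ⟨d / 2, by linarith, h10.le, h8, h7.le, by linarith⟩

theorem det_lower (ι : Type*) [Fintype ι] {s : ℕ} (e : Fin s → ℕ) : ∃ c : ℝ, 0 < c ∧
    ∀ (H γ η : ℝ) (fc : Fin s → MvPolynomial ι ℤ) (ξ : ι → ℝ) (a : Fin s → ι)
      (Li : Matrix (Fin s) (Fin s) ℝ), 0 < H → RDataS e H γ η fc ξ a Li → c ≤ |Li.det| := by
  choose Cj hCj1 hCj using fun j : Fin s => form_bounds (ι := ι) (e j + 1)
  have hpos : ∀ j : Fin s, (0 : ℝ) ≤ Cj j * ((((e j + 1 : ℕ) : ℝ) + 1) * 2) := by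
    intro j
    have := hCj1 j
    positivity
  set C : ℝ := ∑ j, Cj j * ((((e j + 1 : ℕ) : ℝ) + 1) * 2) + 1 with hC
  have hC1 : 1 ≤ C := by
    rw [hC]
    have := Finset.sum_nonneg fun j (_ : j ∈ Finset.univ) => hpos j
    linarith
  have hCle : ∀ j, Cj j * ((((e j + 1 : ℕ) : ℝ) + 1) * 2) ≤ C := by
    intro j
    rw [hC]
    have := Finset.single_le_sum (f := fun j => Cj j * ((((e j + 1 : ℕ) : ℝ) + 1) * 2))
      (fun j _ => hpos j) (Finset.mem_univ j)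
    linarith
  have hD : (0 : ℝ) < (Nat.factorial s : ℝ) * C ^ s := by
    have := Nat.factorial_pos s
    positivity
  refine ⟨1 / ((Nat.factorial s : ℝ) * C ^ s), by positivity, ?_⟩
  intro H γ η fc ξ a Li hH hR
  set M : Matrix (Fin s) (Fin s) ℝ := Matrix.of fun j j' : Fin s =>
    (MvPolynomial.aeval ξ (MvPolynomial.pderiv (a j') (fc j)) : ℝ) / H with hM
  have h1 : Li.det * M.det = 1 := by
    rw [← Matrix.det_mul, hR.hLi, Matrix.det_one]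
  have h2 : ∀ j j', |M j j'| ≤ C := by
    intro j j'
    have h3 : IsF (e j + 1) ((((e j + 1 : ℕ) : ℝ) + 1) * (2 * H))
        (MvPolynomial.pderiv (a j') (fc j)) := IsF.pderiv (hR.hform j) (a j')
    have h4 := (hCj j _ _ h3.1 h3.2 1 zero_le_one).1 ξ hR.hξ
    rw [one_pow, mul_one] at h4
    rw [hM, Matrix.of_apply, abs_div, abs_of_pos hH, div_le_iff₀ hH]
    calc _ ≤ Cj j * ((((e j + 1 : ℕ) : ℝ) + 1) * (2 * H)) := h4
      _ = Cj j * ((((e j + 1 : ℕ) : ℝ) + 1) * 2) * H := by ring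
      _ ≤ C * H := mul_le_mul_of_nonneg_right (hCle j) hH.le
  have h5 : |M.det| ≤ (Nat.factorial s : ℝ) * C ^ s := by
    have h6 := Matrix.det_le (A := M) (abv := AbsoluteValue.abs) (x := C) h2
    rw [Fintype.card_fin, nsmul_eq_mul] at h6
    exact h6
  rw [div_le_iff₀ hD]
  calc (1 : ℝ) = |Li.det * M.det| := by rw [h1, abs_one]
    _ = |Li.det| * |M.det| := abs_mul _ _
    _ ≤ |Li.det| * ((Nat.factorial s : ℝ) * C ^ s) := mul_le_mul_of_nonneg_left h5 (abs_nonneg _)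

theorem sys_upper (ι : Type*) [Fintype ι] {s : ℕ} (e : Fin s → ℕ) {A R c : ℝ} (hA : 1 ≤ A)
    (hR : 0 ≤ R) (hc : 0 ≤ c) (h : 2 * R + 1 ≤ c * (2 * A - 1)) :
    ((sysZ ι e R).card : ℝ) ≤ c ^ (∑ j, (mons ι (e j + 2)).card) * (sysZ ι e A).card := by
  rw [card_sysZ, card_sysZ, ← Finset.prod_pow_eq_pow_sum]
  push_cast
  rw [← Finset.prod_mul_distrib]
  exact Finset.prod_le_prod (fun j _ => Nat.cast_nonneg _)
    fun j _ => card_forms_upper (e j + 2) hA hR hc h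

theorem sys_lower (ι : Type*) [Fintype ι] {s : ℕ} (e : Fin s → ℕ) {A R c : ℝ} (hA : 0 ≤ A)
    (hR : 0 ≤ R) (hc : 0 ≤ c) (h : c * (2 * A + 1) ≤ 2 * R - 1) :
    c ^ (∑ j, (mons ι (e j + 2)).card) * ((sysZ ι e A).card : ℝ) ≤ (sysZ ι e R).card := by
  rw [card_sysZ, card_sysZ, ← Finset.prod_pow_eq_pow_sum]
  push_cast
  rw [← Finset.prod_mul_distrib]
  exact Finset.prod_le_prod (fun j _ => mul_nonneg (pow_nonneg hc _) (Nat.cast_nonneg _))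
    fun j _ => card_forms_lower (e j + 2) hA hR hc h

end Pool.Agent.Y349.C
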